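import Pool.Agent.Y229.PG.Nd
import Pool.Agent.W422.GC.Tw
import Pool.Agent.W422.GC.Up

import Pool.Agent.W30.TW.Ker

set_option autoImplicit false

/-! Twisted topological zeta functions: generic coefficients and compositions, the strong form. -/

namespace Pool.Agent.Q300.TW

open Polynomial Pool.Agent.H628R4.TZ Pool.Agent.H628R4.TP Pool.Agent.W425.SM
open Pool.Agent.W425.GN (RR top_core)
open Pool.Agent.W425.MM (NonD we wc)
open Pool.Agent.Y229.PG (topZetaTw tw_one' tw_two' BecomesG becomes_global becomesG_emb ex_ne_zero' HullT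
  hull_hG)
open Pool.Agent.Y229.RE (unstab shiftZ shiftZ_poly ex ex_inj)
open Pool.Agent.Y229.PS (tup hG sparse_hG exists_factor unstab_poly)

variable {N k r : ℕ}

/-- very general coefficients -/
theorem vg_tw {F : Type} [Field F] [Algebra F ℂ]
    (hr : 1 ≤ r) (v : Fin r → Fin N → ℕ) (a : Fin r → ℂ)
    (hv : Function.Injective v) (hv0 : ∀ j, v j ≠ 0) (ha : AlgebraicIndependent F a)
    (h : MvPolynomial (Fin N) F) (hh : ∀ w ∈ h.support, Pool.Agent.W425.SV.Hull v w)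
    (R : SmoothFan N) (hR : Principal v R) (b : ℂ[X])
    (hb : IsBFunction (sparse v a + MvPolynomial.map (algebraMap F ℂ) h) b)
    (e : ℕ) (he2 : 2 ≤ e) :
    ∃ P : ℂ[X], algebraMap ℂ[X] (RatFunc ℂ) b * topZetaTw v R e =
      algebraMap ℂ[X] (RatFunc ℂ) ((X + 1) * P) := by
  have : NeZero r := ⟨by omega⟩
  by_cases hb0 : b = 0
  · exact ⟨0, by rw [hb0, map_zero, zero_mul, mul_zero, map_zero]⟩
  obtain ⟨θ, hθ⟩ := Pool.Agent.W422.GC.exists_heights r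
  obtain ⟨p, q, rfl, hp⟩ := Pool.Agent.W422.GC.rel_of_unit False ⊥ (fun g hg => by
      rw [Submonoid.mem_bot] at hg
      exact ⟨by rw [hg, map_one], fun _ => hg⟩) v a hv hv0 ha h (fun w hw => by
      obtain ⟨l, h1, h2, h3⟩ := hh w hw
      exact ⟨l, h1, h2, fun i => (h3 i).le⟩) θ hθ b hb0
    ((Pool.Agent.W591.GC.J_bot _ b).2 hb)
  obtain ⟨P, hP⟩ := Pool.Agent.W422.GC.Tw.main_tw v hv θ hθ False R hR e he2 1 one_ne_zero
    (fun h => h.elim) p hp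
  refine ⟨P * q, ?_⟩
  rw [tw_two' v R e he2, map_mul, map_mul, mul_right_comm, mul_assoc, mul_assoc, ← mul_assoc
    (algebraMap ℂ[X] (RatFunc ℂ) p), hP, map_mul, map_mul]

lemma rr_tw (v : Fin r → Fin N → ℕ) (R : SmoothFan N) (e : ℕ) : RR (topZetaTw v R e) := by
  classical
  unfold topZetaTw
  refine RR.sum _ _ fun σ _ => RR.mul ?_ (RR.prod _ _ fun ρ _ => RR.lin _ _)
  refine RR.add ?_ ?_
  · split_ifs
    · exact RR.const _
    · exact RR.zero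
  · split_ifs
    · exact (RR.const _).mul RR.lin1
    · exact RR.zero

/-- division by `X + 1` -/
lemma poly_iff (b : ℂ[X]) (Z : RatFunc ℂ) :
    (∃ P : ℂ[X], algebraMap ℂ[X] (RatFunc ℂ) b * ((RatFunc.X + 1 : RatFunc ℂ)⁻¹ * Z) =
      algebraMap ℂ[X] (RatFunc ℂ) P) ↔
    ∃ P : ℂ[X], algebraMap ℂ[X] (RatFunc ℂ) b * Z =
      algebraMap ℂ[X] (RatFunc ℂ) ((X + 1) * P) := by
  have h1' : (RatFunc.X + 1 : RatFunc ℂ) ≠ 0 := by
    have := Pool.Agent.Y229.PS.ratX_ne (-1)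
    rwa [map_neg, map_one, sub_neg_eq_add] at this
  have h2 : algebraMap ℂ[X] (RatFunc ℂ) (X + 1) = RatFunc.X + 1 := by
    rw [map_add, map_one, RatFunc.algebraMap_X]
  constructor
  · rintro ⟨P, hP⟩
    refine ⟨P, ?_⟩
    rw [map_mul, h2, ← hP]
    field_simp
  · rintro ⟨P, hP⟩
    refine ⟨P, ?_⟩
    rw [map_mul, h2] at hP
    rw [mul_left_comm, hP, ← mul_assoc, inv_mul_cancel₀ h1', one_mul]

/-- **Generic coefficients, all the twisted topological zeta functions.** -/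
theorem gen_tw {F : Type} [Field F] [Algebra F ℂ] (hr : 1 ≤ r)
    (v : Fin r → Fin N → ℕ) (hv : Function.Injective v) (hv0 : ∀ j, v j ≠ 0)
    (h : MvPolynomial (Fin N) F) (hh : ∀ w ∈ h.support, Pool.Agent.W425.SV.Hull v w) :
    ∃ g : MvPolynomial (Fin r) F, g ≠ 0 ∧ ∀ a : Fin r → ℂ, MvPolynomial.aeval a g ≠ 0 →
      NonD (Fin.append v (we h)) (Fin.append a (fun l => algebraMap F ℂ (wc h l))) ∧
      ∀ b : ℂ[X], IsBFunction (sparse v a + MvPolynomial.map (algebraMap F ℂ) h) b →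
      ∀ R : SmoothFan N, Principal v R →
        (∃ P : ℂ[X], algebraMap ℂ[X] (RatFunc ℂ) b * topZetaTw v R 1 =
          algebraMap ℂ[X] (RatFunc ℂ) P) ∧
        ∀ e : ℕ, 2 ≤ e → ∃ P : ℂ[X], algebraMap ℂ[X] (RatFunc ℂ) b * topZetaTw v R e =
          algebraMap ℂ[X] (RatFunc ℂ) ((X + 1) * P) := by
  obtain ⟨g1, hg1, h1⟩ := Pool.Agent.W425.GN.univ Pool.Agent.W425.GN.pF4
    Pool.Agent.W425.GN.pR1 (show 0 < r by omega) v hv h
  obtain ⟨g2, hg2, h2⟩ := Pool.Agent.W425.GN.gen_top hr v hv hv0 h hh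
  refine ⟨g1 * g2, mul_ne_zero hg1 hg2, fun a ha => ?_⟩
  rw [map_mul] at ha
  obtain ⟨h3, h4⟩ := h2 a (right_ne_zero_of_mul ha)
  refine ⟨h3, fun b hb R hR => ⟨?_, fun e he => (poly_iff b _).1 ?_⟩⟩
  · rw [tw_one']
    exact h4 b hb R hR
  · exact top_core v h _ (RR.lin1.mul (rr_tw v R e)) (fun F' _ _ a' h' ha' hs b' hb' =>
      (poly_iff b' _).2 (vg_tw hr v a' hv hv0 ha' h' (fun w hw => hh w (hs w hw)) R hR b'
        ((Pool.Agent.W425.GN.bfun_iff _ _).2 hb') e he)) b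
      (h1 a (left_ne_zero_of_mul ha) b ((Pool.Agent.W425.GN.bfun_iff _ _).1 hb))

/-- the passage from `G` to `f` for `e ≥ 2` -/
theorem unstab_tw {Z : RatFunc ℂ} {k e : ℕ} (he : 2 ≤ e) {c P : ℂ[X]}
    (h : algebraMap ℂ[X] (RatFunc ℂ) ((X + 1) * c.comp (X + C (k : ℂ))) * Z =
      algebraMap ℂ[X] (RatFunc ℂ) ((X + 1) * P)) :
    ∃ P' : ℂ[X], algebraMap ℂ[X] (RatFunc ℂ) ((X + 1) * c) * unstab k e Z =
      algebraMap ℂ[X] (RatFunc ℂ) ((X + 1) * P') := by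
  have h1' : (RatFunc.X + 1 : RatFunc ℂ) ≠ 0 := by
    have := Pool.Agent.Y229.PS.ratX_ne (-1)
    rwa [map_neg, map_one, sub_neg_eq_add] at this
  have h2 : algebraMap ℂ[X] (RatFunc ℂ) (X + 1) = RatFunc.X + 1 := by
    rw [map_add, map_one, RatFunc.algebraMap_X]
  have h3 : algebraMap ℂ[X] (RatFunc ℂ) (c.comp (X + C (k : ℂ))) * Z =
      algebraMap ℂ[X] (RatFunc ℂ) P := by
    rw [map_mul, map_mul, h2, mul_assoc] at h
    exact mul_left_cancel₀ h1' h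
  have h4 := congrArg (shiftZ k) h3
  rw [map_mul, shiftZ_poly, shiftZ_poly, comp_assoc] at h4
  have h5 : (X + C (k : ℂ) : ℂ[X]).comp (X - C (k : ℂ)) = X := by simp
  rw [h5, comp_X] at h4
  refine ⟨P.comp (X - C (k : ℂ)), ?_⟩
  unfold unstab
  rw [if_neg (by omega), map_mul, map_mul, mul_assoc, h4]

/-- **Polynomials which become generic after the addition of `∑ y_i z_i`.** -/
theorem strong_tw (hr : 1 ≤ r) (F : Subfield ℂ) (v : Fin r → Fin (N + (k + k)) → ℕ)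
    (hv : Function.Injective v) (hv0 : ∀ j, v j ≠ 0)
    (h : MvPolynomial (Fin (N + (k + k))) F) (hh : ∀ w ∈ h.support, Pool.Agent.W425.SV.Hull v w) :
    ∃ g : MvPolynomial (Fin r) F, g ≠ 0 ∧ ∀ a : Fin r → ℂ, MvPolynomial.aeval a g ≠ 0 →
      NonD (Fin.append v (we h)) (Fin.append a (fun l => algebraMap F ℂ (wc h l))) ∧
      ∀ f : MvPolynomial (Fin N) ℂ, f.totalDegree ≠ 0 →
        BecomesG f k (sparse v a + MvPolynomial.map (algebraMap F ℂ) h) →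
      ∀ b : ℂ[X], IsBFunction f b → ∀ R : SmoothFan (N + (k + k)), Principal v R →
        (∃ P : ℂ[X], algebraMap ℂ[X] (RatFunc ℂ) (b * (X - C (k : ℂ))) *
          unstab k 1 (topZetaTw v R 1) = algebraMap ℂ[X] (RatFunc ℂ) P) ∧
        ∀ e : ℕ, 2 ≤ e → ∃ P : ℂ[X], algebraMap ℂ[X] (RatFunc ℂ) b *
          unstab k e (topZetaTw v R e) = algebraMap ℂ[X] (RatFunc ℂ) ((X + 1) * P) := by
  obtain ⟨g, hg0, hg⟩ := gen_tw hr v hv hv0 h hh
  refine ⟨g, hg0, fun a ha => ⟨(hg a ha).1, fun f hf hB b hb R hR => ?_⟩⟩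
  obtain ⟨hb1, h1⟩ := becomes_global hf hb hB
  obtain ⟨c, rfl⟩ := exists_factor hb1
  obtain ⟨⟨P, hP⟩, h2⟩ := (hg a ha).2 _ (h1 c rfl) R hR
  refine ⟨unstab_poly hP, fun e he => ?_⟩
  obtain ⟨P, hP⟩ := h2 e he
  exact unstab_tw he hP

/-- **Generic functions on generic graphs.** -/
theorem graph_tw (hr : 1 ≤ r) (F : Subfield ℂ) (π : Fin r → Fin (k + 1))
    (m : Fin r → Fin (N + k) → ℕ) (hinj : ∀ j j', π j = π j' → m j = m j' → j = j')
    (hm : ∀ j, π j = 0 → m j ≠ 0) (H : Fin (k + 1) → MvPolynomial (Fin (N + k)) F)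
    (hH : ∀ i, ∀ w ∈ (H i).support, HullT π m i w) :
    ∃ g : MvPolynomial (Fin r) F, g ≠ 0 ∧ ∀ a : Fin r → ℂ, MvPolynomial.aeval a g ≠ 0 →
      NonD (Fin.append (ex π m) (we (hG H)))
        (Fin.append a (fun l => algebraMap F ℂ (wc (hG H) l))) ∧
      ∀ θ : MvPolynomial (Fin (N + k)) ℂ ≃ₐ[ℂ] MvPolynomial (Fin (N + k)) ℂ,
        (∀ i, θ (MvPolynomial.X (Fin.castAdd k i)) = MvPolynomial.X (Fin.castAdd k i)) →
        (∀ i, θ (MvPolynomial.X (Fin.natAdd N i)) = tup π m a H i.succ) →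
      ∀ (f : MvPolynomial (Fin N) ℂ) (q : Fin k → MvPolynomial (Fin (N + k)) ℂ),
        f.totalDegree ≠ 0 → tup π m a H 0 =
          MvPolynomial.rename (Fin.castAdd k) f + ∑ i, q i * tup π m a H i.succ →
      ∀ b : ℂ[X], IsBFunction f b →
      ∀ R : SmoothFan (N + (k + k)), Principal (ex π m) R →
        (∃ P : ℂ[X], algebraMap ℂ[X] (RatFunc ℂ) (b * (X - C (k : ℂ))) *
          unstab k 1 (topZetaTw (ex π m) R 1) = algebraMap ℂ[X] (RatFunc ℂ) P) ∧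
        ∀ e : ℕ, 2 ≤ e → ∃ P : ℂ[X], algebraMap ℂ[X] (RatFunc ℂ) b *
          unstab k e (topZetaTw (ex π m) R e) = algebraMap ℂ[X] (RatFunc ℂ) ((X + 1) * P) := by
  obtain ⟨g, hg0, hg⟩ := strong_tw hr F (ex π m) (ex_inj π m hinj) (ex_ne_zero' π m hm) (hG H)
    (hull_hG π m H hH)
  refine ⟨g, hg0, fun a ha => ⟨(hg a ha).1, fun θ hx hz f q hf hF b hb R hR =>
    (hg a ha).2 f hf ?_ b hb R hR⟩⟩
  rw [sparse_hG]
  exact becomesG_emb _ _ θ hx hz f q hF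

end Pool.Agent.Q300.TW
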