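import Pool.Agent.Y229.PS.Gen
import Pool.Agent.W425.SH.Final

set_option autoImplicit false

/-! Local topological zeta functions of stably sparse germs. -/

namespace Pool.Agent.Q300.TW

open Polynomial Pool.Agent.W425.SM Pool.Agent.W425.SH
open Pool.Agent.Y229.RE (unstab ex emb yv)
open Pool.Agent.Y229.PS
open Pool.Agent.W425.SL (topZetaSparseLocal)

variable {N k r : ℕ}

/-- **Stably sparse germs.** -/
theorem stab_sparse_loc (hr : 1 ≤ r) (v : Fin r → Fin (N + (k + k)) → ℕ) (a : Fin r → ℂ)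
    (h : MvPolynomial (Fin (N + (k + k))) ℂ)
    (hv : AffineIndependent ℚ (fun j => (fun i => (v j i : ℚ) : Fin (N + (k + k)) → ℚ)))
    (hv0 : ∀ j, v j ≠ 0) (ha : ∀ j, a j ≠ 0) (h1 : h = 0 ∨ Higher v h) (h2 : Above v h)
    (f : MvPowerSeries (Fin N) ℂ) (hf0 : f ≠ 0) (hf : MvPowerSeries.constantCoeff f = 0)
    (hB : Becomes f k (sparse v a + h)) (b : ℂ[X]) (hb : IsFormalBFunction f b)
    (R : SmoothFan (N + (k + k))) (hR : Principal v R) :
    ∃ P : ℂ[X], algebraMap ℂ[X] (RatFunc ℂ) (b * (X - C (k : ℂ))) *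
      unstab k 1 (topZetaSparseLocal v R) = algebraMap ℂ[X] (RatFunc ℂ) P := by
  obtain ⟨hb1, hG⟩ := becomes_local hf0 hf hb hB
  obtain ⟨c, rfl⟩ := exists_factor hb1
  obtain ⟨P, hP⟩ := final' hr v a h hv hv0 ha h1 h2 R hR _ (hG c rfl)
  exact unstab_poly hP

/-- **Functions on smooth germs.** -/
theorem emb_sparse_loc (hr : 1 ≤ r) (v : Fin r → Fin (N + (k + k)) → ℕ) (a : Fin r → ℂ)
    (h : MvPolynomial (Fin (N + (k + k))) ℂ)
    (hv : AffineIndependent ℚ (fun j => (fun i => (v j i : ℚ) : Fin (N + (k + k)) → ℚ)))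
    (hv0 : ∀ j, v j ≠ 0) (ha : ∀ j, a j ≠ 0) (h1 : h = 0 ∨ Higher v h) (h2 : Above v h)
    (l : Fin (k + 1) → MvPolynomial (Fin (N + k)) ℂ)
    (hl0 : ∀ i, MvPolynomial.constantCoeff (l i) = 0)
    (hdet : (Matrix.of fun i j : Fin k => MvPolynomial.coeff (Finsupp.single (Fin.natAdd N j) 1)
      (l i.succ)).det ≠ 0)
    (hG : MvPolynomial.rename emb (l 0) + ∑ i : Fin k, MvPolynomial.X (yv N i) *
      MvPolynomial.rename emb (l i.succ) = sparse v a + h)
    (f : MvPowerSeries (Fin N) ℂ) (q : Fin k → MvPowerSeries (Fin (N + k)) ℂ) (hf0 : f ≠ 0)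
    (hq : ∀ i, MvPowerSeries.constantCoeff (q i) = 0)
    (hF : (l 0 : MvPowerSeries (Fin (N + k)) ℂ) =
      MvPowerSeries.rename (Fin.castAdd k) f +
        ∑ i, q i * (l i.succ : MvPowerSeries (Fin (N + k)) ℂ))
    (b : ℂ[X]) (hb : IsFormalBFunction f b)
    (R : SmoothFan (N + (k + k))) (hR : Principal v R) :
    ∃ P : ℂ[X], algebraMap ℂ[X] (RatFunc ℂ) (b * (X - C (k : ℂ))) *
      unstab k 1 (topZetaSparseLocal v R) = algebraMap ℂ[X] (RatFunc ℂ) P := by
  have hB := becomes_emb l (fun i => hl0 i.succ) hdet f q hq hF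
  have hf : MvPowerSeries.constantCoeff f = 0 := by
    have h3 := congrArg (MvPowerSeries.constantCoeff (σ := Fin (N + k)) (R := ℂ)) hF
    rw [const_coe, hl0, map_add, map_sum, MvPowerSeries.constantCoeff_rename,
      Finset.sum_eq_zero (fun i _ => by rw [map_mul, hq, zero_mul]), add_zero] at h3
    exact h3.symm
  rw [hG] at hB
  exact stab_sparse_loc hr v a h hv hv0 ha h1 h2 f hf0 hf hB b hb R hR

end Pool.Agent.Q300.TW
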