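import Pool.Agent.Q300.TW.Gen
import Pool.Agent.W525.SM.A

set_option autoImplicit false

/-! Twisted topological zeta functions of stably sparse functions. -/

namespace Pool.Agent.Q300.TW

open Polynomial Pool.Agent.H628R4.TZ Pool.Agent.H628R4.TP Pool.Agent.W425.SM
open Pool.Agent.Y229.PG (BecomesG becomes_global becomesG_emb ex_ne_zero')
open Pool.Agent.Y229.RE (unstab shiftZ shiftZ_poly ex sparse_ex)
open Pool.Agent.Y229.PS (exists_factor unstab_poly)
open Pool.Agent.W749.JI (fam)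

variable {N M k r : ℕ}

/-- The twisted topological zeta function `Z^(e)` of `∑_j a_j x ^ (v j)`, affinely independent
exponents `v j`, on the toric embedded resolution given by the fan `R`: the sum over the torus orbits
`O_σ`, `σ ∈ R`, such that `e` divides the multiplicities `ord ρ` of the rays `ρ` of `σ`, of the
contributions of `O_σ` without the strict transform (Euler characteristic `chiO σ - chiH v σ`; left
out for `e ≥ 2` if it does not lie over `{f = 0}`) and, if `e = 1`, of the strict transform in `O_σ`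
(`chiH v σ`, multiplicity `1`). For `e = 1` the Euler characteristic of the complement of `{f = 0}` is
included as a constant term. -/
noncomputable def topZetaH (v : Fin r → Fin M → ℕ) (R : SmoothFan M) (e : ℕ) : RatFunc ℂ :=
  open Classical in
  ∑ σ ∈ R.cones.filter (fun σ => ∀ ρ ∈ σ, e ∣ ordAlong v ρ),
    ((if e = 1 ∨ ∃ ρ ∈ σ, ordAlong v ρ ≠ 0 then ((chiO σ - chiH v σ : ℤ) : RatFunc ℂ) else 0) +
      (if e = 1 then ((chiH v σ : ℤ) : RatFunc ℂ) * (RatFunc.X + 1)⁻¹ else 0)) *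
    ∏ ρ ∈ σ, ((ordAlong v ρ : RatFunc ℂ) * RatFunc.X + ((∑ l, ρ l : ℕ) : RatFunc ℂ))⁻¹

lemma zH_one (v : Fin r → Fin M → ℕ) (R : SmoothFan M) : topZetaH v R 1 = topZetaSparse v R := by
  classical
  unfold topZetaH topZetaSparse
  rw [Finset.filter_true_of_mem fun σ _ ρ _ => one_dvd _]
  refine Finset.sum_congr rfl fun σ _ => ?_
  rw [if_pos (Or.inl rfl), if_pos rfl]

lemma zH_two (v : Fin r → Fin M → ℕ) (R : SmoothFan M) (e : ℕ) (he : 2 ≤ e) :
    topZetaH v R e = Pool.Agent.W30.TW.twZ v R e := by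
  classical
  have h1 : e ≠ 1 := by omega
  unfold topZetaH Pool.Agent.W30.TW.twZ
  rw [Finset.sum_filter, Finset.sum_filter]
  refine Finset.sum_congr rfl fun σ _ => ?_
  rw [if_neg h1, add_zero]
  by_cases h2 : ∀ ρ ∈ σ, e ∣ ordAlong v ρ
  · by_cases h3 : ∃ ρ ∈ σ, ordAlong v ρ ≠ 0
    · rw [if_pos h2, if_pos (Or.inr h3), if_pos ⟨h3, h2⟩]
    · rw [if_pos h2, if_neg (fun h => h.elim h1 h3), if_neg (fun h => h3 h.1), zero_mul]
  · rw [if_neg h2, if_neg (fun h => h2 h.2)]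

/-- **Stably sparse functions.** -/
theorem stab_sparse (hr : 2 ≤ r) (v : Fin r → Fin (N + (k + k)) → ℕ) (a : Fin r → ℂ)
    (hv : AffineIndependent ℚ (fun j => (fun i => (v j i : ℚ) : Fin (N + (k + k)) → ℚ)))
    (hv0 : ∀ j, v j ≠ 0) (ha : ∀ j, a j ≠ 0) (f : MvPolynomial (Fin N) ℂ)
    (hf : f.totalDegree ≠ 0) (hB : BecomesG f k (sparse v a)) (b : ℂ[X]) (hb : IsBFunction f b)
    (R : SmoothFan (N + (k + k))) (hR : Principal v R) :
    (∃ P : ℂ[X], algebraMap ℂ[X] (RatFunc ℂ) (b * (X - C (k : ℂ))) *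
      unstab k 1 (topZetaH v R 1) = algebraMap ℂ[X] (RatFunc ℂ) P) ∧
    ∀ e : ℕ, 2 ≤ e → ∃ P : ℂ[X], algebraMap ℂ[X] (RatFunc ℂ) b *
      unstab k e (topZetaH v R e) = algebraMap ℂ[X] (RatFunc ℂ) ((X + 1) * P) := by
  have : NeZero r := ⟨by omega⟩
  obtain ⟨hb1, h1⟩ := becomes_global hf hb hB
  obtain ⟨c, rfl⟩ := exists_factor hb1
  have hG := h1 c rfl
  refine ⟨?_, fun e he => ?_⟩
  · obtain ⟨P, hP⟩ := Pool.Agent.W425.SM.main hr v a hv hv0 ha R hR _ hG
    rw [zH_one]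
    exact unstab_poly hP
  · obtain ⟨p, hp0, hp⟩ := Pool.Agent.W525.SM.taskA v a _ hr hv ha hG
    obtain ⟨P, hP⟩ := Pool.Agent.W30.TW.main_tw v hv R hR e he p hp
    rw [zH_two v R e he]
    refine unstab_tw he (P := P) ?_
    rw [hp0, map_mul, mul_assoc, hP, map_mul]

/-- **Compositions.** -/
theorem comp_sparse (hr : 2 ≤ r) (π : Fin r → Fin (k + 1)) (m : Fin r → Fin (N + k) → ℕ)
    (hv : AffineIndependent ℚ
      (fun j => (fun i => (ex π m j i : ℚ) : Fin (N + (k + k)) → ℚ)))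
    (hm : ∀ j, π j = 0 → m j ≠ 0) (a : Fin r → ℂ) (ha : ∀ j, a j ≠ 0)
    (θ : MvPolynomial (Fin (N + k)) ℂ ≃ₐ[ℂ] MvPolynomial (Fin (N + k)) ℂ)
    (hx : ∀ i, θ (MvPolynomial.X (Fin.castAdd k i)) = MvPolynomial.X (Fin.castAdd k i))
    (hz : ∀ i, θ (MvPolynomial.X (Fin.natAdd N i)) = fam π m a i.succ)
    (f : MvPolynomial (Fin N) ℂ) (q : Fin k → MvPolynomial (Fin (N + k)) ℂ)
    (hf : f.totalDegree ≠ 0) (hF : fam π m a 0 =
      MvPolynomial.rename (Fin.castAdd k) f + ∑ i, q i * fam π m a i.succ)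
    (b : ℂ[X]) (hb : IsBFunction f b) (R : SmoothFan (N + (k + k)))
    (hR : Principal (ex π m) R) :
    (∃ P : ℂ[X], algebraMap ℂ[X] (RatFunc ℂ) (b * (X - C (k : ℂ))) *
      unstab k 1 (topZetaH (ex π m) R 1) = algebraMap ℂ[X] (RatFunc ℂ) P) ∧
    ∀ e : ℕ, 2 ≤ e → ∃ P : ℂ[X], algebraMap ℂ[X] (RatFunc ℂ) b *
      unstab k e (topZetaH (ex π m) R e) = algebraMap ℂ[X] (RatFunc ℂ) ((X + 1) * P) := by
  refine stab_sparse hr (ex π m) a hv (ex_ne_zero' π m hm) ha f hf ?_ b hb R hR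
  rw [sparse_ex]
  exact becomesG_emb _ _ θ hx hz f q hF

end Pool.Agent.Q300.TW
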